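import Pool.Agent.Lib_helper50.NN.Hierarchy

/-!
# Borel complexity of differences of generalized normal-number sets

For all multiplicatively independent integers `a, b > 1` and every `k ≥ 0` the set
`𝒩_{a,k} \ 𝒩_{b,k}` is `D₂(Π⁰₃)`-complete.

Outline of the proof (modules `Pool.Agent.Lib_helper50.NN.*`).
* `Weyl`: Weyl's criterion (both directions), so that `𝒩_{a,k}` is `Π⁰₃`.
* `Decay`, `LemmaS`: since `log a / log b` is irrational, the leading base `b` digits of `ξ a^s`
  are equidistributed (Benford) uniformly in `ξ`; hence the Fourier transforms of Cantor-like
  measures given by independent base `b` digits are small on average along the powers of `a`,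
  uniformly in the starting scale.
* `Moments`, `Select`: second moment method; existence of blocks of base `b` digits that are good
  for both bases, of sparse blocks good for base `a` and bad for base `b`, and of blocks bad for
  base `a`.
* `Density`, `Greedy`, `Construct`, `Reduction`: a continuous map `F` from sequences of pairs of
  naturals to reals such that `F z` is normal in base `a` and not in base `b` iff the first
  coordinates tend to infinity and the second ones do not.
* `Hierarchy`: a fixed point argument shows that the complement is not in `D₂(Π⁰₃)`.
-/

set_option autoImplicit false

open Pool.Agent.Lib_helper50.NN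

namespace Pool.Agent.Results.MP_df8ac3_lc.DifferenceComplete

/-- For all multiplicatively independent integers `a, b > 1` and every `k ≥ 0`, the set
`𝒩_{a,k} \ 𝒩_{b,k}` is `D₂(Π⁰₃)`-complete. -/
theorem result : ∀ a b : ℕ, 1 < a → 1 < b → MulIndep a b →
    ∀ k : ℕ, IsD2Pi03Complete (normalSet a k \ normalSet b k) :=
  fun _ _ ha hb hab k => main ha hb hab k

end Pool.Agent.Results.MP_df8ac3_lc.DifferenceComplete
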